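import Mathlib

/-!
# Complemented Dedekind-MacNeille completions as injective hulls
-/

open Set Filter

namespace Pool.Agent.Results.MP_edd14c_al.DMInjHull

universe u v w

/-! ## Definitions -/

/-- The operations of a bimonoid: product `mu`, sum `pl`, the unit `un` of the product
and the unit `ze` of the sum. -/
class Ops (A : Type u) where
  mu : A → A → A
  pl : A → A → A
  un : A
  ze : A

open Ops

/-- Commutative `ℓ`-bimonoids. -/
class CLB (A : Type u) extends Lattice A, Ops A where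
  mu_comm : ∀ a b : A, mu a b = mu b a
  mu_assoc : ∀ a b c : A, mu (mu a b) c = mu a (mu b c)
  un_mu : ∀ a : A, mu un a = a
  pl_comm : ∀ a b : A, pl a b = pl b a
  pl_assoc : ∀ a b c : A, pl (pl a b) c = pl a (pl b c)
  ze_pl : ∀ a : A, pl ze a = a
  hemi : ∀ a b c : A, mu a (pl b c) ≤ pl (mu a b) c
  mu_sup : ∀ a b c : A, mu a (b ⊔ c) = mu a b ⊔ mu a c
  pl_inf : ∀ a b c : A, pl a (b ⊓ c) = pl a b ⊓ pl a c

/-- Homomorphisms. -/
structure Hm (A : Type u) (B : Type v) [CLB A] [CLB B] where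
  f : A → B
  map_mu : ∀ a b, f (mu a b) = mu (f a) (f b)
  map_pl : ∀ a b, f (pl a b) = pl (f a) (f b)
  map_un : f un = un
  map_ze : f ze = ze
  map_sup : ∀ a b, f (a ⊔ b) = f a ⊔ f b
  map_inf : ∀ a b, f (a ⊓ b) = f a ⊓ f b

/-- Terms in the language of `ℓ`-bimonoids. -/
inductive Term : Type
  | var : ℕ → Term
  | mu : Term → Term → Term
  | pl : Term → Term → Term
  | un : Term
  | ze : Term
  | sup : Term → Term → Term
  | inf : Term → Term → Term

/-- Evaluation of terms. -/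
def Term.eval {A : Type u} [CLB A] (v : ℕ → A) : Term → A
  | .var n => v n
  | .mu s t => Ops.mu (s.eval v) (t.eval v)
  | .pl s t => Ops.pl (s.eval v) (t.eval v)
  | .un => Ops.un
  | .ze => Ops.ze
  | .sup s t => s.eval v ⊔ t.eval v
  | .inf s t => s.eval v ⊓ t.eval v

/-- `A` belongs to the variety axiomatized by the set `V` of equations. -/
def Mod (V : Set (Term × Term)) (A : Type u) [CLB A] : Prop :=
  ∀ s t : Term, (s, t) ∈ V → ∀ v : ℕ → A, s.eval v = t.eval v

/-- Bounded distributive lattices, as `ℓ`-bimonoids. -/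
def IsBDL (A : Type u) [CLB A] : Prop :=
  (∀ a b : A, mu a b = a ⊓ b) ∧ (∀ a b : A, pl a b = a ⊔ b) ∧
    (∀ a : A, a ≤ un) ∧ ∀ a : A, ze ≤ a

/-- Complements. -/
def Compl {A : Type u} [CLB A] (a b : A) : Prop := mu a b ≤ ze ∧ un ≤ pl a b

/-- `i : A → B` is a complemented Dedekind-MacNeille completion. -/
def IsDMC {A : Type u} {B : Type v} [CLB A] [CLB B] (i : Hm A B) : Prop :=
  Function.Injective i.f ∧
  (∀ S : Set B, ∃ z, IsLUB S z) ∧
  (∀ a : B, ∃ b, Compl a b) ∧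
  ∀ z : B, IsLUB {w | ∃ (a b : A) (c : B), Compl (i.f b) c ∧ w = mu (i.f a) c ∧ w ≤ z} z

/-- `B` is an injective object of the variety `V`. -/
def InjObj (V : Set (Term × Term)) (B : Type u) [CLB B] : Prop :=
  Mod V B ∧ ∀ (C D : Type u) [CLB C] [CLB D], Mod V C → Mod V D → ∀ j : Hm C D,
    Function.Injective j.f → ∀ g : Hm C B, ∃ g' : Hm D B, ∀ c, g'.f (j.f c) = g.f c

/-- `i : A → B` is an injective hull of `A` in `V`. -/
def InjHull (V : Set (Term × Term)) {A B : Type u} [CLB A] [CLB B] (i : Hm A B) : Prop :=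
  Function.Injective i.f ∧ InjObj V B ∧
  ∀ (C : Type u) [CLB C], Mod V C → ∀ g : Hm B C,
    Function.Injective (fun a => g.f (i.f a)) → Function.Injective g.f

/-! ## Derived operations -/

section Derived

variable {A : Type u} [Max A] [Min A] [Ops A]

def tt (x y : A) : A := pl ((x ⊓ un) ⊔ ze) (mu y (ze ⊓ un))
def zt : A := pl un un
def et : A := mu ze ze
def tp : A := (zt : A) ⊔ et
def bt : A := (zt : A) ⊓ et
def TB (x : A) : A := tt x (mu x et)
def TC (x : A) : A := tt x (pl (mu x ze) zt)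
def TD (x : A) : A := tt x (pl x zt)
def RR (x y z : A) : A := tt z ((x ⊓ un) ⊔ (y ⊓ ze) ⊔ z)

end Derived

instance : Ops Term := ⟨Term.mu, Term.pl, Term.un, Term.ze⟩
instance : Max Term := ⟨Term.sup⟩
instance : Min Term := ⟨Term.inf⟩

/-! ## The fibres -/

/-- The fibres: `G true` is the two-element bounded distributive lattice, `G false` the
four-element bimonoid. -/
def G (b : Bool) : Type := {k : Fin 4 // b = true → (k = 0 ∨ k = 3)}

instance (b : Bool) : DecidableEq (G b) :=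
  inferInstanceAs (DecidableEq {k : Fin 4 // b = true → (k = 0 ∨ k = 3)})
instance (b : Bool) : Fintype (G b) :=
  inferInstanceAs (Fintype {k : Fin 4 // b = true → (k = 0 ∨ k = 3)})
instance (b : Bool) : LinearOrder (G b) :=
  inferInstanceAs (LinearOrder {k : Fin 4 // b = true → (k = 0 ∨ k = 3)})

def mu4 (x y : Fin 4) : Fin 4 :=
  if x = 0 ∨ y = 0 then 0 else if x = 1 then y else if y = 1 then x else 3

def pl4 (x y : Fin 4) : Fin 4 :=
  if x = 3 ∨ y = 3 then 3 else if x = 2 then y else if y = 2 then x else 0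

instance (b : Bool) : Ops (G b) where
  mu x y := ⟨bif b then min x.1 y.1 else mu4 x.1 y.1, by
    intro hb; subst hb
    rcases x.2 rfl with h | h <;> rcases y.2 rfl with h' | h' <;> rw [h, h'] <;> decide⟩
  pl x y := ⟨bif b then max x.1 y.1 else pl4 x.1 y.1, by
    intro hb; subst hb
    rcases x.2 rfl with h | h <;> rcases y.2 rfl with h' | h' <;> rw [h, h'] <;> decide⟩
  un := ⟨bif b then 3 else 1, by intro hb; subst hb; decide⟩
  ze := ⟨bif b then 0 else 2, by intro hb; subst hb; decide⟩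

instance (b : Bool) : CLB (G b) where
  mu_comm := by cases b <;> decide
  mu_assoc := by cases b <;> decide
  un_mu := by cases b <;> decide
  pl_comm := by cases b <;> decide
  pl_assoc := by cases b <;> decide
  ze_pl := by cases b <;> decide
  hemi := by cases b <;> decide
  mu_sup := by cases b <;> decide
  pl_inf := by cases b <;> decide

/-- The variety: all equations valid in both fibres. -/
def VV : Set (Term × Term) := {q | ∀ (b : Bool) (v : ℕ → G b), q.1.eval v = q.2.eval v}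

def v3 {A : Type u} (x y z : A) : ℕ → A := fun n => match n with
  | 0 => x
  | 1 => y
  | _ => z

section Identities

variable {A : Type u} [CLB A] (hA : Mod VV A)

theorem transfer (hA : Mod VV A) (s t : Term)
    (h : ∀ (b : Bool) (v : ℕ → G b), s.eval v = t.eval v) (v : ℕ → A) :
    s.eval v = t.eval v := hA s t h v

abbrev X0 : Term := Term.var 0
abbrev X1 : Term := Term.var 1
abbrev X2 : Term := Term.var 2

include hA

theorem id_distrib (x y z : A) : x ⊔ (y ⊓ z) = (x ⊔ y) ⊓ (x ⊔ z) :=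
  transfer hA (X0 ⊔ (X1 ⊓ X2)) ((X0 ⊔ X1) ⊓ (X0 ⊔ X2))
    (fun b v => (by cases b <;> decide :
      ∀ x y z : G b, x ⊔ (y ⊓ z) = (x ⊔ y) ⊓ (x ⊔ z)) (v 0) (v 1) (v 2)) (v3 x y z)

theorem id_tp (x : A) : x ⊔ tp = tp :=
  transfer hA (X0 ⊔ tp) tp
    (fun b v => (by cases b <;> decide : ∀ x : G b, x ⊔ tp = tp) (v 0)) (v3 x x x)

theorem id_bt (x : A) : x ⊓ bt = bt :=
  transfer hA (X0 ⊓ bt) bt
    (fun b v => (by cases b <;> decide : ∀ x : G b, x ⊓ bt = bt) (v 0)) (v3 x x x)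

theorem TB_inf (x y : A) : TB (x ⊓ y) = TB x ⊓ TB y :=
  transfer hA (TB (X0 ⊓ X1)) (TB X0 ⊓ TB X1)
    (fun b v => (by cases b <;> decide : ∀ x y : G b, TB (x ⊓ y) = TB x ⊓ TB y)
      (v 0) (v 1)) (v3 x y y)

theorem TB_sup (x y : A) : TB (x ⊔ y) = TB x ⊔ TB y :=
  transfer hA (TB (X0 ⊔ X1)) (TB X0 ⊔ TB X1)
    (fun b v => (by cases b <;> decide : ∀ x y : G b, TB (x ⊔ y) = TB x ⊔ TB y)
      (v 0) (v 1)) (v3 x y y)

theorem TC_inf (x y : A) : TC (x ⊓ y) = TC x ⊓ TC y :=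
  transfer hA (TC (X0 ⊓ X1)) (TC X0 ⊓ TC X1)
    (fun b v => (by cases b <;> decide : ∀ x y : G b, TC (x ⊓ y) = TC x ⊓ TC y)
      (v 0) (v 1)) (v3 x y y)

theorem TC_sup (x y : A) : TC (x ⊔ y) = TC x ⊔ TC y :=
  transfer hA (TC (X0 ⊔ X1)) (TC X0 ⊔ TC X1)
    (fun b v => (by cases b <;> decide : ∀ x y : G b, TC (x ⊔ y) = TC x ⊔ TC y)
      (v 0) (v 1)) (v3 x y y)

theorem TD_inf (x y : A) : TD (x ⊓ y) = TD x ⊓ TD y :=
  transfer hA (TD (X0 ⊓ X1)) (TD X0 ⊓ TD X1)
    (fun b v => (by cases b <;> decide : ∀ x y : G b, TD (x ⊓ y) = TD x ⊓ TD y)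
      (v 0) (v 1)) (v3 x y y)

theorem TD_sup (x y : A) : TD (x ⊔ y) = TD x ⊔ TD y :=
  transfer hA (TD (X0 ⊔ X1)) (TD X0 ⊔ TD X1)
    (fun b v => (by cases b <;> decide : ∀ x y : G b, TD (x ⊔ y) = TD x ⊔ TD y)
      (v 0) (v 1)) (v3 x y y)

theorem TD_TC (x : A) : TD x ⊓ TC x = TD x :=
  transfer hA (TD X0 ⊓ TC X0) (TD X0)
    (fun b v => (by cases b <;> decide : ∀ x : G b, TD x ⊓ TC x = TD x) (v 0)) (v3 x x x)

theorem TC_TB (x : A) : TC x ⊓ TB x = TC x :=
  transfer hA (TC X0 ⊓ TB X0) (TC X0)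
    (fun b v => (by cases b <;> decide : ∀ x : G b, TC x ⊓ TB x = TC x) (v 0)) (v3 x x x)

theorem TB_mu (x y : A) : TB (mu x y) = TB x ⊓ TB y :=
  transfer hA (TB (mu X0 X1)) (TB X0 ⊓ TB X1)
    (fun b v => (by cases b <;> decide : ∀ x y : G b, TB (mu x y) = TB x ⊓ TB y)
      (v 0) (v 1)) (v3 x y y)

theorem TC_mu (x y : A) : TC (mu x y) = TB x ⊓ TB y ⊓ (TC x ⊔ TC y) :=
  transfer hA (TC (mu X0 X1)) (TB X0 ⊓ TB X1 ⊓ (TC X0 ⊔ TC X1))
    (fun b v => (by cases b <;> decide :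
      ∀ x y : G b, TC (mu x y) = TB x ⊓ TB y ⊓ (TC x ⊔ TC y))
      (v 0) (v 1)) (v3 x y y)

theorem TD_mu (x y : A) : TD (mu x y) = TB x ⊓ TB y ⊓ (TD x ⊔ TD y ⊔ (TC x ⊓ TC y)) :=
  transfer hA (TD (mu X0 X1)) (TB X0 ⊓ TB X1 ⊓ (TD X0 ⊔ TD X1 ⊔ (TC X0 ⊓ TC X1)))
    (fun b v => (by cases b <;> decide :
      ∀ x y : G b, TD (mu x y) = TB x ⊓ TB y ⊓ (TD x ⊔ TD y ⊔ (TC x ⊓ TC y)))
      (v 0) (v 1)) (v3 x y y)

theorem TB_pl (x y : A) :
    TB (pl x y) = TD x ⊔ TD y ⊔ (TB x ⊓ TB y ⊓ (TC x ⊔ TC y)) :=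
  transfer hA (TB (pl X0 X1)) (TD X0 ⊔ TD X1 ⊔ (TB X0 ⊓ TB X1 ⊓ (TC X0 ⊔ TC X1)))
    (fun b v => (by cases b <;> decide :
      ∀ x y : G b, TB (pl x y) = TD x ⊔ TD y ⊔ (TB x ⊓ TB y ⊓ (TC x ⊔ TC y)))
      (v 0) (v 1)) (v3 x y y)

theorem TC_pl (x y : A) : TC (pl x y) = TD x ⊔ TD y ⊔ (TC x ⊓ TC y) :=
  transfer hA (TC (pl X0 X1)) (TD X0 ⊔ TD X1 ⊔ (TC X0 ⊓ TC X1))
    (fun b v => (by cases b <;> decide :
      ∀ x y : G b, TC (pl x y) = TD x ⊔ TD y ⊔ (TC x ⊓ TC y))
      (v 0) (v 1)) (v3 x y y)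

theorem TD_pl (x y : A) : TD (pl x y) = TD x ⊔ TD y :=
  transfer hA (TD (pl X0 X1)) (TD X0 ⊔ TD X1)
    (fun b v => (by cases b <;> decide : ∀ x y : G b, TD (pl x y) = TD x ⊔ TD y)
      (v 0) (v 1)) (v3 x y y)

theorem TB_un : TB (un : A) = tp :=
  transfer hA (TB un) tp (fun b _ => (by cases b <;> decide : TB (un : G b) = tp))
    (fun _ => un)

theorem TC_un : TC (un : A) = zt :=
  transfer hA (TC un) zt (fun b _ => (by cases b <;> decide : TC (un : G b) = zt))
    (fun _ => un)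

theorem TD_un : TD (un : A) = zt :=
  transfer hA (TD un) zt (fun b _ => (by cases b <;> decide : TD (un : G b) = zt))
    (fun _ => un)

theorem TB_ze : TB (ze : A) = et :=
  transfer hA (TB ze) et (fun b _ => (by cases b <;> decide : TB (ze : G b) = et))
    (fun _ => un)

theorem TC_ze : TC (ze : A) = et :=
  transfer hA (TC ze) et (fun b _ => (by cases b <;> decide : TC (ze : G b) = et))
    (fun _ => un)

theorem TD_ze : TD (ze : A) = bt :=
  transfer hA (TD ze) bt (fun b _ => (by cases b <;> decide : TD (ze : G b) = bt))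
    (fun _ => un)

theorem RR_id (x : A) : RR (TB x) (TC x) (TD x) = x :=
  transfer hA (RR (TB X0) (TC X0) (TD X0)) X0
    (fun b v => (by cases b <;> decide : ∀ x : G b, RR (TB x) (TC x) (TD x) = x)
      (v 0)) (v3 x x x)

theorem TD_zt (x : A) : TD x ⊓ zt = TB x ⊓ zt :=
  transfer hA (TD X0 ⊓ zt) (TB X0 ⊓ zt)
    (fun b v => (by cases b <;> decide : ∀ x : G b, TD x ⊓ zt = TB x ⊓ zt)
      (v 0)) (v3 x x x)

end Identities

/-! ## Prime predicates -/

theorem prime_sep {L : Type u} [Lattice L]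
    (hdis : ∀ x y z : L, x ⊔ (y ⊓ z) = (x ⊔ y) ⊓ (x ⊔ z))
    (F I : Set L) (hFn : F.Nonempty) (hFu : ∀ x y, x ≤ y → x ∈ F → y ∈ F)
    (hFi : ∀ x y, x ∈ F → y ∈ F → x ⊓ y ∈ F)
    (hIn : I.Nonempty) (hId : ∀ x y, x ≤ y → y ∈ I → x ∈ I)
    (hIs : ∀ x y, x ∈ I → y ∈ I → x ⊔ y ∈ I) (hd : ∀ x, x ∈ F → x ∉ I) :
    ∃ P : L → Prop, (∀ x ∈ F, P x) ∧ (∀ x ∈ I, ¬ P x) ∧
      (∀ x y, P (x ⊓ y) ↔ P x ∧ P y) ∧ (∀ x y, P (x ⊔ y) ↔ P x ∨ P y) := by
  let _ : DistribLattice L :=
    { (inferInstance : Lattice L) with le_sup_inf := fun x y z => (hdis x y z).ge }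
  have hF : Order.IsPFilter F := Order.IsPFilter.of_def hFn
    (fun x hx y hy => ⟨x ⊓ y, hFi x y hx hy, inf_le_left, inf_le_right⟩)
    (fun {x y} h hx => hFu x y h hx)
  have hI : Order.IsIdeal I := ⟨fun x y h hx => hId y x h hx, hIn,
    fun x hx y hy => ⟨x ⊔ y, hIs x y hx hy, le_sup_left, le_sup_right⟩⟩
  have hdj : Disjoint (hF.toPFilter : Set L) (hI.toIdeal : Set L) := by
    rw [Set.disjoint_left]
    intro x hx hx'
    exact hd x hx hx'
  obtain ⟨J, hJ, hIJ, hFJ⟩ := DistribLattice.prime_ideal_of_disjoint_filter_ideal hdj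
  refine ⟨fun x => x ∉ J, ?_, ?_, ?_, ?_⟩
  · intro x hx hxJ
    exact Set.disjoint_left.1 hFJ (show x ∈ (hF.toPFilter : Set L) from hx) hxJ
  · intro x hx h
    exact h (hIJ (show x ∈ hI.toIdeal from hx))
  · intro x y
    constructor
    · intro h
      exact ⟨fun hx => h (J.lower inf_le_left hx), fun hy => h (J.lower inf_le_right hy)⟩
    · rintro ⟨hx, hy⟩ h
      rcases hJ.mem_or_mem h with h | h
      · exact hx h
      · exact hy h
  · intro x y
    constructor
    · intro h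
      by_contra hc
      push Not at hc
      exact h (Order.Ideal.sup_mem hc.1 hc.2)
    · rintro (hx | hy) h
      · exact hx (J.lower le_sup_left h)
      · exact hy (J.lower le_sup_right h)

/-- Points of a member of the variety. -/
structure Pt (A : Type u) [CLB A] where
  P : A → Prop
  tp' : P tp
  bt' : ¬ P bt
  inf' : ∀ x y, P (x ⊓ y) ↔ P x ∧ P y
  sup' : ∀ x y, P (x ⊔ y) ↔ P x ∨ P y

section Point

variable {A : Type u} [CLB A]

/-- The type of a point. -/
noncomputable def Pt.s (x : Pt A) : Bool := @decide (x.P zt) (Classical.propDecidable _)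

theorem Pt.s_iff (x : Pt A) : x.s = true ↔ x.P zt := by
  unfold Pt.s
  exact @decide_eq_true_iff _ (Classical.propDecidable _)

theorem Pt.mono (x : Pt A) {a b : A} (h : a ≤ b) (ha : x.P a) : x.P b := by
  have : a ⊓ b = a := inf_eq_left.2 h
  rw [← this, x.inf'] at ha
  exact ha.2

open Classical in
/-- The code of three nested propositions. -/
noncomputable def code (B C D : Prop) : Fin 4 :=
  if D then 3 else if C then 2 else if B then 1 else 0

theorem code1 {B C D : Prop} (h1 : D → C) (h2 : C → B) : 1 ≤ code B C D ↔ B := by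
  unfold code
  by_cases hD : D
  · simp [hD, h2 (h1 hD)]
  · by_cases hC : C
    · simp [hD, hC, h2 hC]
    · by_cases hB : B <;> simp [hD, hC, hB]

theorem code2 {B C D : Prop} (h1 : D → C) : 2 ≤ code B C D ↔ C := by
  unfold code
  by_cases hD : D
  · simp [hD, h1 hD]
  · by_cases hC : C
    · simp [hD, hC]
    · by_cases hB : B <;> simp [hD, hC, hB]

theorem code3 {B C D : Prop} : 3 ≤ code B C D ↔ D := by
  unfold code
  by_cases hD : D
  · simp [hD]
  · by_cases hC : C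
    · simp [hD, hC]
    · by_cases hB : B <;> simp [hD, hC, hB]

theorem Pt.DC (hA : Mod VV A) (x : Pt A) (a : A) : x.P (TD a) → x.P (TC a) := by
  intro h
  rw [← TD_TC hA, x.inf'] at h
  exact h.2

theorem Pt.CB (hA : Mod VV A) (x : Pt A) (a : A) : x.P (TC a) → x.P (TB a) := by
  intro h
  rw [← TC_TB hA, x.inf'] at h
  exact h.2

theorem Pt.BD (hA : Mod VV A) (x : Pt A) (hx : x.P zt) (a : A) : x.P (TB a) → x.P (TD a) := by
  intro h
  have h1 : x.P (TB a ⊓ zt) := (x.inf' _ _).2 ⟨h, hx⟩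
  rw [← TD_zt hA, x.inf'] at h1
  exact h1.1

/-- The value of an element at a point. -/
noncomputable def ev (hA : Mod VV A) (x : Pt A) (a : A) : G x.s :=
  ⟨code (x.P (TB a)) (x.P (TC a)) (x.P (TD a)), by
    intro hs
    rw [Pt.s_iff] at hs
    have h1 := x.DC hA a
    have h2 := x.CB hA a
    have h3 := x.BD hA hs a
    unfold code
    by_cases hD : x.P (TD a)
    · simp [hD]
    · have hB : ¬ x.P (TB a) := fun h => hD (h3 h)
      have hC : ¬ x.P (TC a) := fun h => hB (h2 h)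
      simp [hD, hB, hC]⟩

theorem ev1 (hA : Mod VV A) (x : Pt A) (a : A) : 1 ≤ (ev hA x a).1 ↔ x.P (TB a) :=
  code1 (x.DC hA a) (x.CB hA a)

theorem ev2 (hA : Mod VV A) (x : Pt A) (a : A) : 2 ≤ (ev hA x a).1 ↔ x.P (TC a) :=
  code2 (x.DC hA a)

theorem ev3 (hA : Mod VV A) (x : Pt A) (a : A) : 3 ≤ (ev hA x a).1 ↔ x.P (TD a) :=
  code3

theorem G_ext {b : Bool} : ∀ {g h : G b}, (1 ≤ g.1 ↔ 1 ≤ h.1) → (2 ≤ g.1 ↔ 2 ≤ h.1) →
    (3 ≤ g.1 ↔ 3 ≤ h.1) → g = h := by
  cases b <;> decide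

theorem G_mu1 {b : Bool} : ∀ g h : G b, 1 ≤ (mu g h).1 ↔ 1 ≤ g.1 ∧ 1 ≤ h.1 := by
  cases b <;> decide
theorem G_mu2 {b : Bool} : ∀ g h : G b,
    2 ≤ (mu g h).1 ↔ (1 ≤ g.1 ∧ 1 ≤ h.1) ∧ (2 ≤ g.1 ∨ 2 ≤ h.1) := by
  cases b <;> decide
theorem G_mu3 {b : Bool} : ∀ g h : G b,
    3 ≤ (mu g h).1 ↔ (1 ≤ g.1 ∧ 1 ≤ h.1) ∧ ((3 ≤ g.1 ∨ 3 ≤ h.1) ∨ (2 ≤ g.1 ∧ 2 ≤ h.1)) := by
  cases b <;> decide
theorem G_pl1 {b : Bool} : ∀ g h : G b,
    1 ≤ (pl g h).1 ↔ (3 ≤ g.1 ∨ 3 ≤ h.1) ∨ ((1 ≤ g.1 ∧ 1 ≤ h.1) ∧ (2 ≤ g.1 ∨ 2 ≤ h.1)) := by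
  cases b <;> decide
theorem G_pl2 {b : Bool} : ∀ g h : G b,
    2 ≤ (pl g h).1 ↔ (3 ≤ g.1 ∨ 3 ≤ h.1) ∨ (2 ≤ g.1 ∧ 2 ≤ h.1) := by
  cases b <;> decide
theorem G_pl3 {b : Bool} : ∀ g h : G b, 3 ≤ (pl g h).1 ↔ (3 ≤ g.1 ∨ 3 ≤ h.1) := by
  cases b <;> decide
theorem G_sup1 {b : Bool} : ∀ g h : G b, 1 ≤ (g ⊔ h).1 ↔ (1 ≤ g.1 ∨ 1 ≤ h.1) := by
  cases b <;> decide
theorem G_sup2 {b : Bool} : ∀ g h : G b, 2 ≤ (g ⊔ h).1 ↔ (2 ≤ g.1 ∨ 2 ≤ h.1) := by
  cases b <;> decide
theorem G_sup3 {b : Bool} : ∀ g h : G b, 3 ≤ (g ⊔ h).1 ↔ (3 ≤ g.1 ∨ 3 ≤ h.1) := by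
  cases b <;> decide
theorem G_inf1 {b : Bool} : ∀ g h : G b, 1 ≤ (g ⊓ h).1 ↔ (1 ≤ g.1 ∧ 1 ≤ h.1) := by
  cases b <;> decide
theorem G_inf2 {b : Bool} : ∀ g h : G b, 2 ≤ (g ⊓ h).1 ↔ (2 ≤ g.1 ∧ 2 ≤ h.1) := by
  cases b <;> decide
theorem G_inf3 {b : Bool} : ∀ g h : G b, 3 ≤ (g ⊓ h).1 ↔ (3 ≤ g.1 ∧ 3 ≤ h.1) := by
  cases b <;> decide

/-- The value map is a homomorphism. -/
noncomputable def evH (hA : Mod VV A) (x : Pt A) : Hm A (G x.s) where
  f := ev hA x
  map_mu a b := by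
    apply G_ext
    · rw [ev1, TB_mu hA, G_mu1, ev1, ev1, x.inf']
    · rw [ev2, TC_mu hA, G_mu2, ev1, ev1, ev2, ev2, x.inf', x.inf', x.sup']
    · rw [ev3, TD_mu hA, G_mu3, ev1, ev1, ev2, ev2, ev3, ev3, x.inf', x.inf', x.sup', x.sup',
        x.inf']
  map_pl a b := by
    apply G_ext
    · rw [ev1, TB_pl hA, G_pl1, ev1, ev1, ev2, ev2, ev3, ev3, x.sup', x.sup', x.inf', x.inf',
        x.sup']
    · rw [ev2, TC_pl hA, G_pl2, ev2, ev2, ev3, ev3, x.sup', x.sup', x.inf']
    · rw [ev3, TD_pl hA, G_pl3, ev3, ev3, x.sup']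
  map_sup a b := by
    apply G_ext
    · rw [ev1, TB_sup hA, G_sup1, ev1, ev1, x.sup']
    · rw [ev2, TC_sup hA, G_sup2, ev2, ev2, x.sup']
    · rw [ev3, TD_sup hA, G_sup3, ev3, ev3, x.sup']
  map_inf a b := by
    apply G_ext
    · rw [ev1, TB_inf hA, G_inf1, ev1, ev1, x.inf']
    · rw [ev2, TC_inf hA, G_inf2, ev2, ev2, x.inf']
    · rw [ev3, TD_inf hA, G_inf3, ev3, ev3, x.inf']
  map_un := by
    have key : ∀ b : Bool, (1 ≤ (un : G b).1) ∧ (2 ≤ (un : G b).1 ↔ b = true) ∧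
      (3 ≤ (un : G b).1 ↔ b = true) := by decide
    obtain ⟨k1, k2, k3⟩ := key x.s
    apply G_ext
    · rw [ev1, TB_un hA]
      exact ⟨fun _ => k1, fun _ => x.tp'⟩
    · rw [ev2, TC_un hA, k2, x.s_iff]
    · rw [ev3, TD_un hA, k3, x.s_iff]
  map_ze := by
    have key : ∀ b : Bool, (1 ≤ (ze : G b).1 ↔ b = false) ∧ (2 ≤ (ze : G b).1 ↔ b = false) ∧
      ¬ (3 ≤ (ze : G b).1) := by decide
    obtain ⟨k1, k2, k3⟩ := key x.s
    have het : x.P et ↔ x.s = false := by
      have h1 : x.P zt ∨ x.P et := (x.sup' _ _).1 x.tp'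
      have h2 : ¬ (x.P zt ∧ x.P et) := fun h => x.bt' ((x.inf' _ _).2 h)
      rw [← Bool.not_eq_true, x.s_iff]
      tauto
    apply G_ext
    · rw [ev1, TB_ze hA, k1, het]
    · rw [ev2, TC_ze hA, k2, het]
    · rw [ev3, TD_ze hA]
      exact ⟨fun h => absurd h x.bt', fun h => absurd h k3⟩

/-- Points separate elements. -/
theorem sep (hA : Mod VV A) {a a' : A} (h : a ≠ a') :
    ∃ x : Pt A, (evH hA x).f a ≠ (evH hA x).f a' := by
  by_contra hc
  push Not at hc
  -- it suffices that all points agree on elements with equal values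
  have main : ∀ c c' : A, (∀ x : Pt A, x.P c ↔ x.P c') → c ≤ c' := by
    intro c c' hcc
    by_contra hle
    obtain ⟨P, hF, hI, hinf, hsup⟩ := prime_sep (id_distrib hA) {d | c ≤ d} {d | d ≤ c'}
      ⟨c, le_rfl⟩ (fun x y hxy hx => le_trans hx hxy) (fun x y hx hy => le_inf hx hy)
      ⟨c', le_rfl⟩ (fun x y hxy hy => le_trans hxy hy) (fun x y hx hy => sup_le hx hy)
      (fun x hx hx' => hle (le_trans hx hx'))
    have htp : P tp := hF _ (by
      have := id_tp hA c
      exact sup_eq_right.1 this)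
    have hbt : ¬ P bt := hI _ (by
      have := id_bt hA c'
      exact inf_eq_right.1 this)
    have := hcc ⟨P, htp, hbt, hinf, hsup⟩
    exact hI c' le_rfl (this.1 (hF c le_rfl))
  have main' : ∀ c c' : A, (∀ x : Pt A, x.P c ↔ x.P c') → c = c' := fun c c' hcc =>
    le_antisymm (main c c' hcc) (main c' c (fun x => (hcc x).symm))
  apply h
  have h1 : TB a = TB a' := main' _ _ (fun x => by
    rw [← ev1 hA, ← ev1 hA]; have := hc x; change ev hA x a = ev hA x a' at this; rw [this])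
  have h2 : TC a = TC a' := main' _ _ (fun x => by
    rw [← ev2 hA, ← ev2 hA]; have := hc x; change ev hA x a = ev hA x a' at this; rw [this])
  have h3 : TD a = TD a' := main' _ _ (fun x => by
    rw [← ev3 hA, ← ev3 hA]; have := hc x; change ev hA x a = ev hA x a' at this; rw [this])
  rw [← RR_id hA a, ← RR_id hA a', h1, h2, h3]

end Point

/-! ## Homomorphisms -/

namespace Hm

variable {A : Type u} {B : Type v} {C : Type w} [CLB A] [CLB B] [CLB C]

def comp (g : Hm B C) (f : Hm A B) : Hm A C where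
  f a := g.f (f.f a)
  map_mu a b := by rw [f.map_mu, g.map_mu]
  map_pl a b := by rw [f.map_pl, g.map_pl]
  map_un := by rw [f.map_un, g.map_un]
  map_ze := by rw [f.map_ze, g.map_ze]
  map_sup a b := by rw [f.map_sup, g.map_sup]
  map_inf a b := by rw [f.map_inf, g.map_inf]

theorem mono (f : Hm A B) {a b : A} (h : a ≤ b) : f.f a ≤ f.f b := by
  rw [← sup_eq_right] at h ⊢
  rw [← f.map_sup, h]

theorem le_of_le (f : Hm A B) (hf : Function.Injective f.f) {a b : A} (h : f.f a ≤ f.f b) :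
    a ≤ b := by
  rw [← sup_eq_right] at h ⊢
  apply hf
  rw [f.map_sup, h]

theorem map_eval (f : Hm A B) (v : ℕ → A) (t : Term) :
    f.f (t.eval v) = t.eval (fun n => f.f (v n)) := by
  induction t with
  | var n => rfl
  | mu s t hs ht => simp only [Term.eval, f.map_mu, hs, ht]
  | pl s t hs ht => simp only [Term.eval, f.map_pl, hs, ht]
  | un => simp only [Term.eval, f.map_un]
  | ze => simp only [Term.eval, f.map_ze]
  | sup s t hs ht => simp only [Term.eval, f.map_sup, hs, ht]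
  | inf s t hs ht => simp only [Term.eval, f.map_inf, hs, ht]

theorem map_zt (f : Hm A B) : f.f zt = zt := by
  unfold zt
  rw [f.map_pl, f.map_un]

theorem map_et (f : Hm A B) : f.f et = et := by
  unfold et
  rw [f.map_mu, f.map_ze]

theorem map_tp (f : Hm A B) : f.f tp = tp := by
  unfold tp
  rw [f.map_sup, f.map_zt, f.map_et]

theorem map_bt (f : Hm A B) : f.f bt = bt := by
  unfold bt
  rw [f.map_inf, f.map_zt, f.map_et]

theorem map_tt (f : Hm A B) (x y : A) : f.f (tt x y) = tt (f.f x) (f.f y) := by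
  unfold tt
  rw [f.map_pl, f.map_sup, f.map_inf, f.map_mu, f.map_inf, f.map_un, f.map_ze]

theorem map_TB (f : Hm A B) (x : A) : f.f (TB x) = TB (f.f x) := by
  unfold TB
  rw [f.map_tt, f.map_mu, f.map_et]

theorem map_TC (f : Hm A B) (x : A) : f.f (TC x) = TC (f.f x) := by
  unfold TC
  rw [f.map_tt, f.map_pl, f.map_mu, f.map_ze, f.map_zt]

theorem map_TD (f : Hm A B) (x : A) : f.f (TD x) = TD (f.f x) := by
  unfold TD
  rw [f.map_tt, f.map_pl, f.map_zt]

end Hm

theorem mod_of_surj {V : Set (Term × Term)} {A : Type u} {B : Type v} [CLB A] [CLB B]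
    (f : Hm A B) (hf : Function.Surjective f.f) (hA : Mod V A) : Mod V B := by
  intro s t hst v
  choose w hw using fun n => hf (v n)
  have hv : v = fun n => f.f (w n) := by
    funext n
    exact (hw n).symm
  rw [hv, ← f.map_eval, ← f.map_eval, hA s t hst w]

theorem mod_of_inj {V : Set (Term × Term)} {A : Type u} {B : Type v} [CLB A] [CLB B]
    (f : Hm A B) (hf : Function.Injective f.f) (hB : Mod V B) : Mod V A := by
  intro s t hst v
  apply hf
  rw [f.map_eval, f.map_eval, hB s t hst]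

theorem mod_G (b : Bool) : Mod VV (G b) := fun _ _ hst v => hst b v

/-! ## Injectivity of the fibres -/

theorem G_zt3 (b : Bool) : (zt : G b).1 = 3 ↔ b = true := by
  cases b <;> decide

theorem G_inj {C : Type u} {D : Type v} [CLB C] [CLB D] (hD : Mod VV D)
    (j : Hm C D) (hj : Function.Injective j.f) {b : Bool} (φ : Hm C (G b)) :
    ∃ ψ : Hm D (G b), ∀ c, ψ.f (j.f c) = φ.f c := by
  have g_inf : ∀ g h : G b, (g ⊓ h).1 = 3 ↔ g.1 = 3 ∧ h.1 = 3 := by
    cases b <;> decide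
  have g_sup : ∀ g h : G b, (g ⊔ h).1 = 3 ↔ g.1 = 3 ∨ h.1 = 3 := by
    cases b <;> decide
  have g_tp : (tp : G b).1 = 3 := by cases b <;> decide
  have g_bt : (bt : G b).1 ≠ 3 := by cases b <;> decide
  obtain ⟨P, hF, hI, hinf, hsup⟩ := prime_sep (id_distrib hD)
    {d | ∃ c, (φ.f c).1 = 3 ∧ j.f c ≤ d} {d | ∃ c, (φ.f c).1 ≠ 3 ∧ d ≤ j.f c}
    ⟨j.f tp, tp, by rw [φ.map_tp]; exact g_tp, le_rfl⟩
    (fun x y hxy ⟨c, hc, hx⟩ => ⟨c, hc, hx.trans hxy⟩)
    (fun x y ⟨c, hc, hx⟩ ⟨c', hc', hy⟩ => ⟨c ⊓ c', by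
      rw [φ.map_inf, g_inf]; exact ⟨hc, hc'⟩, by
      rw [j.map_inf]; exact inf_le_inf hx hy⟩)
    ⟨j.f bt, bt, by rw [φ.map_bt]; exact g_bt, le_rfl⟩
    (fun x y hxy ⟨c, hc, hx⟩ => ⟨c, hc, hxy.trans hx⟩)
    (fun x y ⟨c, hc, hx⟩ ⟨c', hc', hy⟩ => ⟨c ⊔ c', by
      rw [φ.map_sup, Ne, g_sup]; tauto, by
      rw [j.map_sup]; exact sup_le_sup hx hy⟩)
    (by
      rintro x ⟨c, hc, hx⟩ ⟨c', hc', hx'⟩
      have h1 : c ≤ c' := j.le_of_le hj (hx.trans hx')
      have h2 : φ.f c ⊔ φ.f c' = φ.f c' := by rw [← φ.map_sup, sup_eq_right.2 h1]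
      apply hc'
      rw [← h2, g_sup]
      exact Or.inl hc)
  have hP : ∀ c, P (j.f c) ↔ (φ.f c).1 = 3 := by
    intro c
    constructor
    · intro h
      by_contra hc
      exact hI _ ⟨c, hc, le_rfl⟩ h
    · intro h
      exact hF _ ⟨c, h, le_rfl⟩
  have htp : P tp := by
    rw [← j.map_tp, hP, φ.map_tp]
    exact g_tp
  have hbt : ¬ P bt := by
    rw [← j.map_bt, hP, φ.map_bt]
    exact g_bt
  let x : Pt D := ⟨P, htp, hbt, hinf, hsup⟩
  have hxs : x.s = b := by
    have h1 : x.s = true ↔ b = true := by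
      rw [x.s_iff, ← G_zt3 b, ← φ.map_zt, ← hP, j.map_zt]
    cases b
    · cases hs : x.s
      · rfl
      · exact absurd (h1.1 hs) (by decide)
    · exact h1.2 rfl
  have hPx : ∀ d, x.P d = P d := fun d => rfl
  clear_value x
  subst hxs
  refine ⟨evH hD x, fun c => ?_⟩
  have t1 : ∀ b : Bool, ∀ g : G b, ((TB g).1 = 3 ↔ 1 ≤ g.1) := by decide
  have t2 : ∀ b : Bool, ∀ g : G b, ((TC g).1 = 3 ↔ 2 ≤ g.1) := by decide
  have t3 : ∀ b : Bool, ∀ g : G b, ((TD g).1 = 3 ↔ 3 ≤ g.1) := by decide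
  change ev hD x (j.f c) = φ.f c
  apply G_ext
  · rw [ev1, ← j.map_TB, hPx, hP, φ.map_TB, t1]
  · rw [ev2, ← j.map_TC, hPx, hP, φ.map_TC, t2]
  · rw [ev3, ← j.map_TD, hPx, hP, φ.map_TD, t3]

/-! ## Products -/

instance piCLB {ι : Type u} {H : ι → Type v} [∀ i, CLB (H i)] : CLB (∀ i, H i) where
  mu f g := fun i => mu (f i) (g i)
  pl f g := fun i => pl (f i) (g i)
  un := fun _ => un
  ze := fun _ => ze
  mu_comm a b := funext fun i => CLB.mu_comm _ _
  mu_assoc a b c := funext fun i => CLB.mu_assoc _ _ _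
  un_mu a := funext fun i => CLB.un_mu _
  pl_comm a b := funext fun i => CLB.pl_comm _ _
  pl_assoc a b c := funext fun i => CLB.pl_assoc _ _ _
  ze_pl a := funext fun i => CLB.ze_pl _
  hemi a b c := fun i => CLB.hemi _ _ _
  mu_sup a b c := funext fun i => CLB.mu_sup _ _ _
  pl_inf a b c := funext fun i => CLB.pl_inf _ _ _

def proj {ι : Type u} {H : ι → Type v} [∀ i, CLB (H i)] (i : ι) : Hm (∀ i, H i) (H i) where
  f g := g i
  map_mu _ _ := rfl
  map_pl _ _ := rfl
  map_un := rfl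
  map_ze := rfl
  map_sup _ _ := rfl
  map_inf _ _ := rfl

theorem mod_pi {V : Set (Term × Term)} {ι : Type u} {H : ι → Type v} [∀ i, CLB (H i)]
    (h : ∀ i, Mod V (H i)) : Mod V (∀ i, H i) := by
  intro s t hst v
  funext i
  have h1 := (proj (H := H) i).map_eval v s
  have h2 := (proj (H := H) i).map_eval v t
  have h3 := h i s t hst (fun n => (proj (H := H) i).f (v n))
  rw [← h1, ← h2] at h3
  exact h3

/-! ## Reduced products -/

section RP

variable {ι : Type u} (F : Filter ι) (H : ι → Type v) [∀ i, CLB (H i)]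

/-- Equality modulo a filter. -/
def FS : Setoid (∀ i, H i) where
  r f g := ∀ᶠ i in F, f i = g i
  iseqv := ⟨fun f => Filter.Eventually.of_forall fun _ => rfl,
    fun h => h.mono fun _ h => h.symm,
    fun h h' => by filter_upwards [h, h'] with i h1 h2 using h1.trans h2⟩

/-- Reduced products. -/
def RP : Type (max u v) := Quotient (FS F H)

variable {H}

def mk (f : ∀ i, H i) : RP F H := Quotient.mk (FS F H) f

theorem mk_eq {f g : ∀ i, H i} : mk F f = mk F g ↔ ∀ᶠ i in F, f i = g i :=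
  Quotient.eq (r := FS F H)

theorem mk_surj (z : RP F H) : ∃ f, mk F f = z := Quotient.exists_rep z

variable (H)

@[reducible] def rpOps : Ops (RP F H) where
  mu := Quotient.lift₂ (fun f g => mk F (mu f g)) (by
    intro a b c d h1 h2
    rw [mk_eq]
    filter_upwards [h1, h2] with i h1 h2
    change mu (a i) (b i) = mu (c i) (d i)
    rw [h1, h2])
  pl := Quotient.lift₂ (fun f g => mk F (pl f g)) (by
    intro a b c d h1 h2
    rw [mk_eq]
    filter_upwards [h1, h2] with i h1 h2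
    change pl (a i) (b i) = pl (c i) (d i)
    rw [h1, h2])
  un := mk F un
  ze := mk F ze

@[reducible] def rpMax : Max (RP F H) where
  max := Quotient.lift₂ (fun f g => mk F (f ⊔ g)) (by
    intro a b c d h1 h2
    rw [mk_eq]
    filter_upwards [h1, h2] with i h1 h2
    change (a i) ⊔ (b i) = (c i) ⊔ (d i)
    rw [h1, h2])

@[reducible] def rpMin : Min (RP F H) where
  min := Quotient.lift₂ (fun f g => mk F (f ⊓ g)) (by
    intro a b c d h1 h2
    rw [mk_eq]
    filter_upwards [h1, h2] with i h1 h2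
    change (a i) ⊓ (b i) = (c i) ⊓ (d i)
    rw [h1, h2])

section Inst1

attribute [local instance] rpMax rpMin

@[reducible] def rpLattice : Lattice (RP F H) := Lattice.mk'
  (by
    intro a b
    obtain ⟨a, rfl⟩ := mk_surj F a
    obtain ⟨b, rfl⟩ := mk_surj F b
    change mk F (a ⊔ b) = mk F (b ⊔ a)
    rw [sup_comm])
  (by
    intro a b c
    obtain ⟨a, rfl⟩ := mk_surj F a
    obtain ⟨b, rfl⟩ := mk_surj F b
    obtain ⟨c, rfl⟩ := mk_surj F c
    change mk F (a ⊔ b ⊔ c) = mk F (a ⊔ (b ⊔ c))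
    rw [sup_assoc])
  (by
    intro a b
    obtain ⟨a, rfl⟩ := mk_surj F a
    obtain ⟨b, rfl⟩ := mk_surj F b
    change mk F (a ⊓ b) = mk F (b ⊓ a)
    rw [inf_comm])
  (by
    intro a b c
    obtain ⟨a, rfl⟩ := mk_surj F a
    obtain ⟨b, rfl⟩ := mk_surj F b
    obtain ⟨c, rfl⟩ := mk_surj F c
    change mk F (a ⊓ b ⊓ c) = mk F (a ⊓ (b ⊓ c))
    rw [inf_assoc])
  (by
    intro a b
    obtain ⟨a, rfl⟩ := mk_surj F a
    obtain ⟨b, rfl⟩ := mk_surj F b
    change mk F (a ⊔ a ⊓ b) = mk F a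
    rw [sup_inf_self])
  (by
    intro a b
    obtain ⟨a, rfl⟩ := mk_surj F a
    obtain ⟨b, rfl⟩ := mk_surj F b
    change mk F (a ⊓ (a ⊔ b)) = mk F a
    rw [inf_sup_self])

end Inst1

section Inst2

attribute [local instance] rpOps rpLattice

variable {H}

theorem mk_le0 {f g : ∀ i, H i} : mk F f ≤ mk F g ↔ ∀ᶠ i in F, f i ≤ g i := by
  rw [← sup_eq_right]
  change mk F (f ⊔ g) = mk F g ↔ _
  rw [mk_eq]
  constructor
  · intro h
    filter_upwards [h] with i hi
    exact sup_eq_right.1 hi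
  · intro h
    filter_upwards [h] with i hi
    exact sup_eq_right.2 hi

variable (H)

instance rpCLB : CLB (RP F H) where
  mu_comm a b := by
    obtain ⟨a, rfl⟩ := mk_surj F a
    obtain ⟨b, rfl⟩ := mk_surj F b
    change mk F (mu a b) = mk F (mu b a)
    rw [CLB.mu_comm]
  mu_assoc a b c := by
    obtain ⟨a, rfl⟩ := mk_surj F a
    obtain ⟨b, rfl⟩ := mk_surj F b
    obtain ⟨c, rfl⟩ := mk_surj F c
    change mk F (mu (mu a b) c) = mk F (mu a (mu b c))
    rw [CLB.mu_assoc]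
  un_mu a := by
    obtain ⟨a, rfl⟩ := mk_surj F a
    change mk F (mu un a) = _
    rw [CLB.un_mu]
  pl_comm a b := by
    obtain ⟨a, rfl⟩ := mk_surj F a
    obtain ⟨b, rfl⟩ := mk_surj F b
    change mk F (pl a b) = mk F (pl b a)
    rw [CLB.pl_comm]
  pl_assoc a b c := by
    obtain ⟨a, rfl⟩ := mk_surj F a
    obtain ⟨b, rfl⟩ := mk_surj F b
    obtain ⟨c, rfl⟩ := mk_surj F c
    change mk F (pl (pl a b) c) = mk F (pl a (pl b c))
    rw [CLB.pl_assoc]
  ze_pl a := by
    obtain ⟨a, rfl⟩ := mk_surj F a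
    change mk F (pl ze a) = _
    rw [CLB.ze_pl]
  hemi a b c := by
    obtain ⟨a, rfl⟩ := mk_surj F a
    obtain ⟨b, rfl⟩ := mk_surj F b
    obtain ⟨c, rfl⟩ := mk_surj F c
    change mk F (mu a (pl b c)) ≤ mk F (pl (mu a b) c)
    rw [mk_le0]
    exact Filter.Eventually.of_forall fun i => CLB.hemi _ _ _
  mu_sup a b c := by
    obtain ⟨a, rfl⟩ := mk_surj F a
    obtain ⟨b, rfl⟩ := mk_surj F b
    obtain ⟨c, rfl⟩ := mk_surj F c
    change mk F (mu a (b ⊔ c)) = mk F (mu a b ⊔ mu a c)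
    rw [CLB.mu_sup]
  pl_inf a b c := by
    obtain ⟨a, rfl⟩ := mk_surj F a
    obtain ⟨b, rfl⟩ := mk_surj F b
    obtain ⟨c, rfl⟩ := mk_surj F c
    change mk F (pl a (b ⊓ c)) = mk F (pl a b ⊓ pl a c)
    rw [CLB.pl_inf]

end Inst2

variable {H}

theorem mk_mu (f g : ∀ i, H i) : mu (mk F f) (mk F g) = mk F (mu f g) := rfl
theorem mk_pl (f g : ∀ i, H i) : pl (mk F f) (mk F g) = mk F (pl f g) := rfl
theorem mk_sup (f g : ∀ i, H i) : (mk F f) ⊔ (mk F g) = mk F (f ⊔ g) := rfl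
theorem mk_inf (f g : ∀ i, H i) : (mk F f) ⊓ (mk F g) = mk F (f ⊓ g) := rfl
theorem mk_le {f g : ∀ i, H i} : mk F f ≤ mk F g ↔ ∀ᶠ i in F, f i ≤ g i := mk_le0 F

variable (H)

/-- The quotient map. -/
def mkH : Hm (∀ i, H i) (RP F H) where
  f := mk F
  map_mu _ _ := rfl
  map_pl _ _ := rfl
  map_un := rfl
  map_ze := rfl
  map_sup _ _ := rfl
  map_inf _ _ := rfl

end RP

/-! ## Complements -/

section Complement

variable {A : Type u} {B : Type v} [CLB A] [CLB B]

theorem mu_mono {a b c d : A} (h1 : a ≤ b) (h2 : c ≤ d) : mu a c ≤ mu b d := by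
  have e1 : mu a c ≤ mu a d := by
    rw [← sup_eq_right, ← CLB.mu_sup, sup_eq_right.2 h2]
  have e2 : mu a d ≤ mu b d := by
    rw [CLB.mu_comm a d, CLB.mu_comm b d, ← sup_eq_right, ← CLB.mu_sup, sup_eq_right.2 h1]
  exact e1.trans e2

theorem pl_mono {a b c d : A} (h1 : a ≤ b) (h2 : c ≤ d) : pl a c ≤ pl b d := by
  have e1 : pl a c ≤ pl a d := by
    rw [← inf_eq_left, ← CLB.pl_inf, inf_eq_left.2 h2]
  have e2 : pl a d ≤ pl b d := by
    rw [CLB.pl_comm a d, CLB.pl_comm b d, ← inf_eq_left, ← CLB.pl_inf, inf_eq_left.2 h1]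
  exact e1.trans e2

theorem Compl.symm {a b : A} (h : Compl a b) : Compl b a :=
  ⟨by rw [CLB.mu_comm]; exact h.1, by rw [CLB.pl_comm]; exact h.2⟩

theorem Compl.map (f : Hm A B) {a b : A} (h : Compl a b) : Compl (f.f a) (f.f b) :=
  ⟨by rw [← f.map_mu, ← f.map_ze]; exact f.mono h.1,
    by rw [← f.map_pl, ← f.map_un]; exact f.mono h.2⟩

/-- Residuation: `x · z ≤ y` iff `x ≤ y + z̄`. -/
theorem mu_le_iff {z z' : A} (h : Compl z z') (x y : A) : mu x z ≤ y ↔ x ≤ pl y z' := by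
  constructor
  · intro hxy
    calc x = mu un x := (CLB.un_mu x).symm
      _ = mu x un := CLB.mu_comm _ _
      _ ≤ mu x (pl z z') := mu_mono le_rfl h.2
      _ ≤ pl (mu x z) z' := CLB.hemi _ _ _
      _ ≤ pl y z' := pl_mono hxy le_rfl
  · intro hxy
    calc mu x z ≤ mu (pl y z') z := mu_mono hxy le_rfl
      _ = mu z (pl z' y) := by rw [CLB.mu_comm, CLB.pl_comm]
      _ ≤ pl (mu z z') y := CLB.hemi _ _ _
      _ ≤ pl ze y := pl_mono h.1 le_rfl
      _ = y := CLB.ze_pl y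

theorem Compl.anti {a b a' b' : A} (h : Compl a a') (h' : Compl b b') (hab : a ≤ b) :
    b' ≤ a' := by
  have h1 : mu b' a ≤ ze := by
    rw [CLB.mu_comm]
    exact (mu_mono hab le_rfl).trans h'.1
  have := (mu_le_iff h b' ze).1 h1
  rwa [CLB.ze_pl] at this

theorem Compl.unique {a b c : A} (h : Compl a b) (h' : Compl a c) : b = c :=
  le_antisymm (h'.anti h le_rfl) (h.anti h' le_rfl)

end Complement

/-! ## The filter -/

theorem exists_filter {X : Type u} (S : Set (Set X)) (hS : ∀ E ∈ S, E.Nonempty) :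
    ∃ F : Filter X, (∀ E ∈ S, ∃ᶠ x in F, x ∈ E) ∧
      ∀ Z : Set X, (∃ᶠ x in F, x ∈ Z) → ∃ E ∈ S, ∀ᶠ x in F, x ∉ Z → x ∉ E := by
  obtain ⟨m, -, hm⟩ := zorn_le_nonempty₀ (α := (Filter X)ᵒᵈ)
    {F | ∀ E ∈ S, ∃ᶠ x in OrderDual.ofDual F, x ∈ E} (by
      intro c hc hchain y hy
      refine ⟨OrderDual.toDual (⨅ f ∈ c, OrderDual.ofDual f), ?_, ?_⟩
      · intro E hE hcon
        change Eᶜ ∈ (⨅ f ∈ c, OrderDual.ofDual f : Filter X) at hcon
        rw [Filter.mem_biInf_of_directed] at hcon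
        · obtain ⟨f, hf, hfE⟩ := hcon
          exact hc hf E hE hfE
        · intro f hf g hg
          rcases hchain.total hf hg with h | h
          · exact ⟨g, hg, h, le_rfl⟩
          · exact ⟨f, hf, le_rfl, h⟩
        · exact ⟨y, hy⟩
      · intro z hz
        change (⨅ f ∈ c, OrderDual.ofDual f : Filter X) ≤ OrderDual.ofDual z
        exact biInf_le _ hz) (OrderDual.toDual ⊤) (by
      intro E hE
      rw [OrderDual.ofDual_toDual, Filter.frequently_top]
      exact hS E hE)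
  refine ⟨OrderDual.ofDual m, hm.prop, ?_⟩
  intro Z hZ
  by_contra hcon
  push Not at hcon
  have h1 : OrderDual.toDual (OrderDual.ofDual m ⊓ 𝓟 Zᶜ) ∈
      {F : (Filter X)ᵒᵈ | ∀ E ∈ S, ∃ᶠ x in OrderDual.ofDual F, x ∈ E} := by
    intro E hE
    rw [OrderDual.ofDual_toDual]
    intro hcE
    rw [Filter.eventually_inf_principal] at hcE
    obtain h := hcon E hE
    apply h
    filter_upwards [hcE] with x hx hxZ
    exact hx hxZ.1 hxZ.2
  have h2 := hm.le_of_ge h1 (show OrderDual.ofDual m ⊓ 𝓟 Zᶜ ≤ OrderDual.ofDual m from inf_le_left)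
  have h3 : OrderDual.ofDual m ≤ 𝓟 Zᶜ :=
    le_trans (show OrderDual.ofDual m ≤ OrderDual.ofDual m ⊓ 𝓟 Zᶜ from h2) inf_le_right
  exact hZ (Filter.le_principal_iff.1 h3)

/-! ## The key lemma -/

/-- The complement in the fibres. -/
def cpl {b : Bool} (g : G b) : G b := ⟨3 - g.1, by
  intro hb
  rcases g.2 hb with h | h <;> rw [h] <;> decide⟩

theorem cpl_compl {b : Bool} : ∀ g : G b, Compl g (cpl g) := by
  unfold Compl
  cases b <;> decide

section Main

variable {A : Type u} [CLB A] (hA : Mod VV A)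

theorem G01 {b : Bool} : ∀ g : G b, ((TB g).1 = 0 ∨ (TB g).1 = 3) ∧
    ((TC g).1 = 0 ∨ (TC g).1 = 3) ∧ ((TD g).1 = 0 ∨ (TD g).1 = 3) := by
  cases b <;> decide

theorem exists_T {α α' : A} (h : α ≠ α') : ∃ T : A → A, T α ≠ T α' ∧
    (∀ (x : Pt A) (c : A), (ev hA x (T c)).1 = 0 ∨ (ev hA x (T c)).1 = 3) ∧
    ∀ (x : Pt A) (c c' : A), ev hA x c = ev hA x c' → ev hA x (T c) = ev hA x (T c') := by
  by_cases h1 : TB α = TB α'
  · by_cases h2 : TC α = TC α'
    · have h3 : TD α ≠ TD α' := fun h3 => h (by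
        rw [← RR_id hA α, ← RR_id hA α', h1, h2, h3])
      refine ⟨TD, h3, fun x c => ?_, fun x c c' hc => ?_⟩
      · have := (evH hA x).map_TD c
        change ev hA x (TD c) = TD (ev hA x c) at this
        rw [this]
        exact (G01 _).2.2
      · have e1 := (evH hA x).map_TD c
        have e2 := (evH hA x).map_TD c'
        change ev hA x (TD c) = TD (ev hA x c) at e1
        change ev hA x (TD c') = TD (ev hA x c') at e2
        rw [e1, e2, hc]
    · refine ⟨TC, h2, fun x c => ?_, fun x c c' hc => ?_⟩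
      · have := (evH hA x).map_TC c
        change ev hA x (TC c) = TC (ev hA x c) at this
        rw [this]
        exact (G01 _).2.1
      · have e1 := (evH hA x).map_TC c
        have e2 := (evH hA x).map_TC c'
        change ev hA x (TC c) = TC (ev hA x c) at e1
        change ev hA x (TC c') = TC (ev hA x c') at e2
        rw [e1, e2, hc]
  · refine ⟨TB, h1, fun x c => ?_, fun x c c' hc => ?_⟩
    · have := (evH hA x).map_TB c
      change ev hA x (TB c) = TB (ev hA x c) at this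
      rw [this]
      exact (G01 _).1
    · have e1 := (evH hA x).map_TB c
      have e2 := (evH hA x).map_TB c'
      change ev hA x (TB c) = TB (ev hA x c) at e1
      change ev hA x (TB c') = TB (ev hA x c') at e2
      rw [e1, e2, hc]

theorem G_uv {b : Bool} : ∀ g h : G b, (g.1 = 0 ∨ g.1 = 3) → (h.1 = 0 ∨ h.1 = 3) →
    (g ⊔ h = g ⊓ h ∧ ((g ⊔ h).1 = 0 ∨ (g ⊔ h).1 = 3)) ∨
      ((g ⊔ h).1 = 3 ∧ (g ⊓ h).1 = 0 ∧ g ≠ h) := by
  cases b <;> decide

theorem G_w0 {b : Bool} : ∀ g c : G b, (g.1 = 0 ∨ g.1 = 3) →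
    (mu (g ⊓ c) (cpl (g ⊔ ze))).1 = 0 := by
  cases b <;> decide

theorem G_w1 {b : Bool} : ∀ g h c : G b, g.1 = 3 → h.1 = 0 →
    (mu (g ⊓ c) (cpl (h ⊔ ze))).1 = c.1 := by
  cases b <;> decide

/-- Closed elements. -/
def cq {A : Type u} [CLB A] (b : Bool) (q : Fin 4) : A :=
  if b = true then un else if q = 1 then un else if q = 2 then ze else et

theorem cq_val {b : Bool} : ∀ q : Fin 4, q ≠ 0 → (b = true → (q = 0 ∨ q = 3)) →
    (cq b q : G b).1 = q := by
  cases b <;> decide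

theorem Hm.map_cq {A : Type u} {B : Type v} [CLB A] [CLB B] (f : Hm A B) (b : Bool)
    (q : Fin 4) : f.f (cq b q) = cq b q := by
  unfold cq
  split_ifs
  · exact f.map_un
  · exact f.map_un
  · exact f.map_ze
  · exact f.map_et

theorem key (F : Filter (Pt A))
    (hD : ∀ Z : Set (Pt A), (∃ᶠ x in F, x ∈ Z) →
      ∃ a a' : A, a ≠ a' ∧ ∀ᶠ x in F, x ∉ Z → ev hA x a = ev hA x a')
    (f f' : ∀ x : Pt A, G x.s) (h : ∃ᶠ x in F, ¬ f x ≤ f' x) :
    ∃ (q p : Fin 4) (u v a b : A), u ≠ v ∧ p < q ∧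
      ∀ᶠ x in F, (ev hA x u = ev hA x v ∧ (mu (ev hA x a) (cpl (ev hA x b))).1 = 0) ∨
        ((ev hA x u).1 = 3 ∧ (ev hA x v).1 = 0 ∧ (mu (ev hA x a) (cpl (ev hA x b))).1 = q ∧
          (f x).1 = q ∧ (f' x).1 = p) := by
  obtain ⟨b, q, p, hqp, hfr⟩ : ∃ (b : Bool) (q p : Fin 4), p < q ∧
      ∃ᶠ x in F, x.s = b ∧ (f x).1 = q ∧ (f' x).1 = p := by
    by_contra hcon
    push Not at hcon
    have h1 : ∀ᶠ x in F, ∀ (b : Bool) (q p : Fin 4), p < q →
        x.s = b → (f x).1 = q → (f' x).1 ≠ p := by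
      rw [Filter.eventually_all]
      intro b
      rw [Filter.eventually_all]
      intro q
      rw [Filter.eventually_all]
      intro p
      by_cases hpq : p < q
      · filter_upwards [hcon b q p hpq] with x hx _ h1 h2 using hx h1 h2
      · exact Filter.Eventually.of_forall fun x hx => absurd hx hpq
    apply h
    filter_upwards [h1] with x hx
    intro hle
    have hlt : (f' x).1 < (f x).1 := by
      by_contra hlt
      exact hle (not_lt.1 hlt)
    exact hx x.s (f x).1 (f' x).1 hlt rfl rfl rfl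
  obtain ⟨α, α', hne, hev⟩ := hD {x | x.s = b ∧ (f x).1 = q ∧ (f' x).1 = p} hfr
  obtain ⟨T, hT, hT1, hT2⟩ := exists_T hA hne
  refine ⟨q, p, T α ⊔ T α', T α ⊓ T α', (T α ⊔ T α') ⊓ cq b q, (T α ⊓ T α') ⊔ ze, ?_, hqp, ?_⟩
  · intro hh
    apply hT
    exact (inf_eq_sup.1 hh.symm)
  · filter_upwards [hev] with x hx
    have eu : ev hA x (T α ⊔ T α') = ev hA x (T α) ⊔ ev hA x (T α') := (evH hA x).map_sup _ _
    have ev' : ev hA x (T α ⊓ T α') = ev hA x (T α) ⊓ ev hA x (T α') := (evH hA x).map_inf _ _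
    have ea : ev hA x ((T α ⊔ T α') ⊓ cq b q) = ev hA x (T α ⊔ T α') ⊓ cq b q := by
      have h1 := (evH hA x).map_inf (T α ⊔ T α') (cq b q)
      have h2 := (evH hA x).map_cq b q
      change ev hA x (cq b q) = cq b q at h2
      change ev hA x _ = ev hA x _ ⊓ ev hA x _ at h1
      rw [h1, h2]
    have eb : ev hA x ((T α ⊓ T α') ⊔ ze) = ev hA x (T α ⊓ T α') ⊔ ze := by
      have h1 := (evH hA x).map_sup (T α ⊓ T α') ze
      have h2 := (evH hA x).map_ze
      change ev hA x ze = ze at h2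
      change ev hA x _ = ev hA x _ ⊔ ev hA x _ at h1
      rw [h1, h2]
    rw [ea, eb]
    rcases G_uv _ _ (hT1 x α) (hT1 x α') with ⟨h1, h2⟩ | ⟨h1, h2, h3⟩
    · left
      rw [← eu, ← ev'] at h1
      rw [← eu] at h2
      refine ⟨h1, ?_⟩
      rw [← h1]
      exact G_w0 _ _ h2
    · right
      rw [← eu] at h1
      rw [← ev'] at h2
      have hxZ : x.s = b ∧ (f x).1 = q ∧ (f' x).1 = p := by
        by_contra hcon
        exact h3 (hT2 x α α' (hx hcon))
      refine ⟨h1, h2, ?_, hxZ.2.1, hxZ.2.2⟩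
      rw [G_w1 _ _ _ h1 h2]
      have hq0 : q ≠ 0 := by
        intro hq
        rw [hq] at hqp
        exact absurd hqp (Fin.not_lt_zero p)
      obtain ⟨hs, hq, hp⟩ := hxZ
      rw [← hs]
      apply cq_val q hq0
      intro hs'
      rw [← hq]
      exact (f x).2 hs'

/-! ## The completion -/

/-- The product of the fibres. -/
abbrev MM (A : Type u) [CLB A] : Type u := ∀ x : Pt A, G x.s

theorem mod_MM : Mod VV (MM A) := mod_pi fun x => mod_G x.s

/-- The canonical map into the product. -/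
noncomputable def canH : Hm A (MM A) where
  f a := fun x => ev hA x a
  map_mu a b := funext fun x => (evH hA x).map_mu a b
  map_pl a b := funext fun x => (evH hA x).map_pl a b
  map_un := funext fun x => (evH hA x).map_un
  map_ze := funext fun x => (evH hA x).map_ze
  map_sup a b := funext fun x => (evH hA x).map_sup a b
  map_inf a b := funext fun x => (evH hA x).map_inf a b

theorem MM_inj {C : Type v} {D : Type w} [CLB C] [CLB D] (hD : Mod VV D)
    (j : Hm C D) (hj : Function.Injective j.f) (φ : Hm C (MM A)) :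
    ∃ ψ : Hm D (MM A), ∀ c, ψ.f (j.f c) = φ.f c := by
  have h1 : ∀ x : Pt A, ∃ ψ : Hm D (G x.s), ∀ c, ψ.f (j.f c) = φ.f c x := fun x =>
    G_inj hD j hj ((proj (H := fun x : Pt A => G x.s) x).comp φ)
  choose ψ hψ using h1
  exact ⟨{ f := fun d x => (ψ x).f d
           map_mu := fun a b => funext fun x => (ψ x).map_mu a b
           map_pl := fun a b => funext fun x => (ψ x).map_pl a b
           map_un := funext fun x => (ψ x).map_un
           map_ze := funext fun x => (ψ x).map_ze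
           map_sup := fun a b => funext fun x => (ψ x).map_sup a b
           map_inf := fun a b => funext fun x => (ψ x).map_inf a b },
    fun c => funext fun x => hψ x c⟩

theorem G_complete {b : Bool} (S : Set (G b)) : ∃ z, IsLUB S z := by
  by_cases hS : S.Nonempty
  · obtain ⟨z, hz, hmax⟩ := Set.exists_max_image S id (Set.toFinite S) hS
    exact ⟨z, fun y hy => hmax y hy, fun y hy => hy hz⟩
  · rw [Set.not_nonempty_iff_eq_empty] at hS
    subst hS
    refine ⟨bt, fun y hy => absurd hy (Set.notMem_empty _), fun y _ => ?_⟩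
    have hbt : ∀ b : Bool, ∀ g : G b, (bt : G b) ≤ g := by decide
    exact hbt _ _

theorem MM_complete (S : Set (MM A)) : ∃ z, IsLUB S z := by
  choose z hz using fun x : Pt A => G_complete ((fun f : MM A => f x) '' S)
  refine ⟨z, fun f hf x => (hz x).1 ⟨f, hf, rfl⟩, fun y hy x => (hz x).2 ?_⟩
  rintro _ ⟨f, hf, rfl⟩
  exact hy hf x

theorem MM_compl (f : MM A) : ∃ g, Compl f g :=
  ⟨fun x => cpl (f x), fun x => (cpl_compl (f x)).1, fun x => (cpl_compl (f x)).2⟩

/-- Existence of the completion, with its properties. -/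
theorem completion (hA : Mod VV A) :
    ∃ (B : Type u) (_ : CLB B) (i : Hm A B), IsDMC i ∧ InjHull VV i := by
  obtain ⟨F, hF1, hF2⟩ := exists_filter
    {E : Set (Pt A) | ∃ a a' : A, a ≠ a' ∧ E = {x | ev hA x a ≠ ev hA x a'}} (by
      rintro E ⟨a, a', hne, rfl⟩
      exact sep hA hne)
  have hN : ∀ a a' : A, a ≠ a' → ∃ᶠ x in F, ev hA x a ≠ ev hA x a' := fun a a' h =>
    hF1 _ ⟨a, a', h, rfl⟩
  have hD : ∀ Z : Set (Pt A), (∃ᶠ x in F, x ∈ Z) →
      ∃ a a' : A, a ≠ a' ∧ ∀ᶠ x in F, x ∉ Z → ev hA x a = ev hA x a' := by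
    intro Z hZ
    obtain ⟨E, ⟨a, a', hne, rfl⟩, hE⟩ := hF2 Z hZ
    refine ⟨a, a', hne, ?_⟩
    filter_upwards [hE] with x hx hxZ
    by_contra hc
    exact hx hxZ hc
  let B := RP F (fun x : Pt A => G x.s)
  let π : Hm (MM A) B := mkH F (fun x : Pt A => G x.s)
  let i : Hm A B := π.comp (canH hA)
  have hi : ∀ a, i.f a = mk F (fun x => ev hA x a) := fun a => rfl
  have hinj : Function.Injective i.f := by
    intro a a' haa
    by_contra hne
    rw [hi, hi, mk_eq] at haa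
    exact hN a a' hne (haa.mono fun x hx => not_not.2 hx)
  have hBV : Mod VV B := mod_of_surj π (mk_surj F) (mod_MM)
  have hcompl : ∀ z : B, ∃ z', Compl z z' := by
    intro z
    obtain ⟨f, rfl⟩ := mk_surj F z
    obtain ⟨g, hg⟩ := MM_compl f
    exact ⟨_, hg.map π⟩
  have hgen : ∀ z z' : B, ¬ z ≤ z' → ∃ (w : B) (a b : A) (c : B), Compl (i.f b) c ∧
      w = mu (i.f a) c ∧ w ≤ z ∧ ¬ w ≤ z' := by
    intro z z' hzz
    obtain ⟨f, rfl⟩ := mk_surj F z
    obtain ⟨f', rfl⟩ := mk_surj F z'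
    rw [mk_le, Filter.not_eventually] at hzz
    obtain ⟨q, p, u, v, a, b, huv, hpq, hev⟩ := key hA F hD f f' hzz
    refine ⟨mk F (fun x => mu (ev hA x a) (cpl (ev hA x b))), a, b,
      mk F (fun x => cpl (ev hA x b)), ?_, rfl, ?_, ?_⟩
    · have h1 : Compl (canH hA |>.f b) (fun x => cpl (ev hA x b)) :=
        ⟨fun x => (cpl_compl (ev hA x b)).1, fun x => (cpl_compl (ev hA x b)).2⟩
      exact h1.map π
    · rw [mk_le]
      filter_upwards [hev] with x hx
      rcases hx with ⟨-, h0⟩ | ⟨-, -, h1, h2, -⟩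
      · change (mu (ev hA x a) (cpl (ev hA x b))).1 ≤ (f x).1
        rw [h0]
        exact Fin.zero_le _
      · change (mu (ev hA x a) (cpl (ev hA x b))).1 ≤ (f x).1
        rw [h1, h2]
    · rw [mk_le]
      intro hcon
      apply hN u v huv
      filter_upwards [hev, hcon] with x hx hx'
      rw [not_not]
      rcases hx with ⟨h0, -⟩ | ⟨-, -, h1, h2, h3⟩
      · exact h0
      · exfalso
        change (mu (ev hA x a) (cpl (ev hA x b))).1 ≤ (f' x).1 at hx'
        rw [h1, h3] at hx'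
        exact absurd hx' (not_le.2 hpq)
  have hdense : ∀ z : B,
      IsLUB {w | ∃ (a b : A) (c : B), Compl (i.f b) c ∧ w = mu (i.f a) c ∧ w ≤ z} z := by
    intro z
    refine ⟨fun w ⟨a, b, c, _, _, h⟩ => h, fun z' hz' => ?_⟩
    by_contra hcon
    obtain ⟨w, a, b, c, h1, h2, h3, h4⟩ := hgen z z' hcon
    exact h4 (hz' ⟨a, b, c, h1, h2, h3⟩)
  have hess : ∀ (C : Type u) [CLB C], Mod VV C → ∀ g : Hm B C,
      Function.Injective (fun a => g.f (i.f a)) → Function.Injective g.f := by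
    intro C _ _ g hg
    have hle : ∀ z z' : B, g.f z = g.f z' → z ≤ z' := by
      intro z z' hzz
      by_contra hcon
      obtain ⟨f, rfl⟩ := mk_surj F z
      obtain ⟨f', rfl⟩ := mk_surj F z'
      have hcon' := hcon
      rw [mk_le, Filter.not_eventually] at hcon'
      obtain ⟨q, p, u, v, a, b, huv, hpq, hev⟩ := key hA F hD f f' hcon'
      -- the generator
      let W : MM A := fun x => mu (ev hA x a) (cpl (ev hA x b))
      have hW : ∀ x, W x = mu (ev hA x a) (cpl (ev hA x b)) := fun x => rfl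
      have hWf : mk F W ≤ mk F f := by
        rw [mk_le]
        filter_upwards [hev] with x hx
        rcases hx with ⟨-, h0⟩ | ⟨-, -, h1, h2, -⟩
        · change (mu (ev hA x a) (cpl (ev hA x b))).1 ≤ (f x).1
          rw [h0]
          exact Fin.zero_le _
        · change (mu (ev hA x a) (cpl (ev hA x b))).1 ≤ (f x).1
          rw [h1, h2]
      have hgW : g.f (mk F W) = g.f (mk F W ⊓ mk F f') := by
        have h1 : mk F W ⊓ mk F f = mk F W := inf_eq_left.2 hWf
        have h2 : g.f (mk F W ⊓ mk F f) = g.f (mk F W ⊓ mk F f') := by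
          rw [g.map_inf, g.map_inf, hzz]
        rw [← h2, h1]
      -- the threshold map
      obtain ⟨T, hT1, hT2, hT3⟩ : ∃ T : ∀ (D : Type u) [CLB D], D → D,
          (∀ (C D : Type u) [CLB C] [CLB D] (g : Hm C D) (c : C), g.f (T C c) = T D (g.f c)) ∧
          (∀ (w : MM A) (x : Pt A), (T (MM A) w x).1 = if p < (w x).1 then 3 else 0) ∧
          True := by
        have hp : p = 0 ∨ p = 1 ∨ p = 2 := by
          have hall : ∀ p q : Fin 4, p < q → p = 0 ∨ p = 1 ∨ p = 2 := by decide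
          exact hall p q hpq
        rcases hp with rfl | rfl | rfl
        · refine ⟨fun D _ d => TB d, fun C D _ _ g c => g.map_TB c, fun w x => ?_, trivial⟩
          have key1 : ∀ b : Bool, ∀ g : G b, (TB g).1 = if (0 : Fin 4) < g.1 then 3 else 0 := by
            decide
          exact key1 _ _
        · refine ⟨fun D _ d => TC d, fun C D _ _ g c => g.map_TC c, fun w x => ?_, trivial⟩
          have key1 : ∀ b : Bool, ∀ g : G b, (TC g).1 = if (1 : Fin 4) < g.1 then 3 else 0 := by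
            decide
          exact key1 _ _
        · refine ⟨fun D _ d => TD d, fun C D _ _ g c => g.map_TD c, fun w x => ?_, trivial⟩
          have key1 : ∀ b : Bool, ∀ g : G b, (TD g).1 = if (2 : Fin 4) < g.1 then 3 else 0 := by
            decide
          exact key1 _ _
      have e1 : T B (mk F W) = mk F (T (MM A) W) := (hT1 (MM A) B π W).symm
      have e2 : T B (mk F W ⊓ mk F f') = mk F (T (MM A) (W ⊓ f')) :=
        (hT1 (MM A) B π (W ⊓ f')).symm
      have e3 : g.f (mk F (T (MM A) W)) = g.f (mk F (T (MM A) (W ⊓ f'))) := by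
        rw [← e1, ← e2, hT1, hT1, hgW]
      have e4 : i.f u = i.f v ⊔ mk F (T (MM A) W) := by
        rw [hi, hi, mk_sup, mk_eq]
        filter_upwards [hev] with x hx
        apply Subtype.ext
        change (ev hA x u).1 = (max (ev hA x v) (T (MM A) W x)).1
        have hmax : ∀ b : Bool, ∀ g h : G b, (max g h).1 = max g.1 h.1 := by decide
        rw [hmax, hT2]
        rcases hx with ⟨h0, h00⟩ | ⟨h1, h2, h3, h4, h5⟩
        · rw [hW, h00, h0]
          simp
        · rw [hW, h3, h1, h2, if_pos hpq]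
          simp
      have e5 : mk F (T (MM A) (W ⊓ f')) = mk F (bt : MM A) := by
        rw [mk_eq]
        filter_upwards [hev] with x hx
        apply Subtype.ext
        rw [hT2]
        have hmin : ∀ b : Bool, ∀ g h : G b, (g ⊓ h).1 = min g.1 h.1 := by decide
        have hbt : ∀ b : Bool, (bt : G b).1 = 0 := by decide
        change _ = (bt : G x.s).1
        rw [hbt]
        change (if p < (W x ⊓ f' x).1 then (3 : Fin 4) else 0) = 0
        rw [hmin]
        rcases hx with ⟨h0, h00⟩ | ⟨h1, h2, h3, h4, h5⟩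
        · rw [hW, h00]
          simp
        · rw [h5]
          simp
      apply huv
      apply hg
      change g.f (i.f u) = g.f (i.f v)
      have e6 : mk F (bt : MM A) ≤ i.f v := by
        rw [hi, mk_le]
        refine Filter.Eventually.of_forall fun x => ?_
        have hbt : ∀ b : Bool, ∀ g : G b, (bt : G b) ≤ g := by decide
        exact hbt _ _
      rw [e4, g.map_sup, e3, e5, ← g.map_sup, sup_eq_left.2 e6]
    intro z z' hzz
    exact le_antisymm (hle z z' hzz) (hle z' z hzz.symm)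
  -- retraction
  obtain ⟨h, hh⟩ := MM_inj (A := A) hBV i hinj (canH hA)
  have hk : ∀ z : B, z ≤ π.f (h.f z) := by
    intro z
    apply (hdense z).2
    rintro w ⟨a, b, c, h1, h2, h3⟩
    have k1 : π.f (h.f (i.f a)) = i.f a := by rw [hh]; rfl
    have k2 : π.f (h.f c) = c := by
      have h4 : Compl (π.f (h.f (i.f b))) (π.f (h.f c)) := (h1.map h).map π
      rw [hh] at h4
      exact Compl.unique h4 h1
    have k3 : π.f (h.f w) = w := by
      rw [h2, h.map_mu, π.map_mu, k1, k2]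
    rw [← k3]
    exact π.mono (h.mono h3)
  have hk' : ∀ z : B, π.f (h.f z) = z := by
    intro z
    obtain ⟨z', hz'⟩ := hcompl z
    have h4 : Compl (π.f (h.f z)) (π.f (h.f z')) := (hz'.map h).map π
    exact le_antisymm (hz'.symm.anti h4.symm (hk z')) (hk z)
  refine ⟨B, inferInstance, i, ⟨hinj, ?_, hcompl, hdense⟩, hinj, ⟨hBV, ?_⟩, hess⟩
  · intro S
    obtain ⟨y, hy⟩ := MM_complete (h.f '' S)
    refine ⟨π.f y, ?_, ?_⟩
    · intro z hz
      rw [← hk' z]
      exact π.mono (hy.1 ⟨z, hz, rfl⟩)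
    · intro z' hz'
      rw [← hk' z']
      apply π.mono
      apply hy.2
      rintro _ ⟨z, hz, rfl⟩
      exact h.mono (hz' hz)
  · intro C D _ _ _ hDV j hj g
    obtain ⟨ψ, hψ⟩ := MM_inj (A := A) hDV j hj (h.comp g)
    refine ⟨π.comp ψ, fun c => ?_⟩
    change π.f (ψ.f (j.f c)) = g.f c
    rw [hψ]
    exact hk' _

end Main

/-! ## Uniqueness of completions -/

section Unique

theorem Compl.mu_pl {A : Type u} [CLB A] {x y x' y' : A} (h : Compl x x') (h' : Compl y y') :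
    Compl (mu x y) (pl x' y') := by
  constructor
  · calc mu (mu x y) (pl x' y') = mu y (mu x (pl x' y')) := by
          rw [CLB.mu_comm x y, CLB.mu_assoc]
      _ ≤ mu y (pl (mu x x') y') := mu_mono le_rfl (CLB.hemi _ _ _)
      _ ≤ mu y (pl ze y') := mu_mono le_rfl (pl_mono h.1 le_rfl)
      _ = mu y y' := by rw [CLB.ze_pl]
      _ ≤ ze := h'.1
  · have h1 : x ≤ pl (mu x y) y' := by
      calc x = mu x un := by rw [CLB.mu_comm, CLB.un_mu]
        _ ≤ mu x (pl y y') := mu_mono le_rfl h'.2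
        _ ≤ pl (mu x y) y' := CLB.hemi _ _ _
    calc un ≤ pl x x' := h.2
      _ ≤ pl (pl (mu x y) y') x' := pl_mono h1 le_rfl
      _ = pl (mu x y) (pl x' y') := by rw [CLB.pl_assoc, CLB.pl_comm y' x']

variable {A : Type u} {B : Type v} [CLB A] [CLB B] {i : Hm A B}

/-- The complement operation of a completion. -/
noncomputable def cp (hB : IsDMC i) (z : B) : B := (hB.2.2.1 z).choose

theorem cp_spec (hB : IsDMC i) (z : B) : Compl z (cp hB z) := (hB.2.2.1 z).choose_spec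

theorem cp_eq (hB : IsDMC i) {z z' : B} (h : Compl z z') : cp hB z = z' :=
  (cp_spec hB z).unique h

theorem cp_cp (hB : IsDMC i) (z : B) : cp hB (cp hB z) = z := cp_eq hB (cp_spec hB z).symm

theorem cp_mu (hB : IsDMC i) (x y : B) : cp hB (mu x y) = pl (cp hB x) (cp hB y) :=
  cp_eq hB ((cp_spec hB x).mu_pl (cp_spec hB y))

theorem cp_pl (hB : IsDMC i) (x y : B) : cp hB (pl x y) = mu (cp hB x) (cp hB y) :=
  cp_eq hB (by
    have := (cp_spec hB x).symm.mu_pl (cp_spec hB y).symm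
    exact this.symm)

theorem cp_anti (hB : IsDMC i) {x y : B} (h : x ≤ y) : cp hB y ≤ cp hB x :=
  (cp_spec hB x).anti (cp_spec hB y) h

theorem le_cp_iff (hB : IsDMC i) {x y : B} : x ≤ cp hB y ↔ y ≤ cp hB x := by
  constructor
  · intro h
    have := cp_anti hB h
    rwa [cp_cp] at this
  · intro h
    have := cp_anti hB h
    rwa [cp_cp] at this

/-- Generators. -/
noncomputable def gen (hB : IsDMC i) (a b : A) : B := mu (i.f a) (cp hB (i.f b))

/-- Dual generators. -/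
noncomputable def dg (hB : IsDMC i) (a b : A) : B := pl (i.f a) (cp hB (i.f b))

theorem cp_gen (hB : IsDMC i) (a b : A) : cp hB (gen hB a b) = dg hB b a := by
  unfold gen dg
  rw [cp_mu, cp_cp, CLB.pl_comm]

theorem gen_le (hB : IsDMC i) {z z' : B} (h : ∀ a b, gen hB a b ≤ z → gen hB a b ≤ z') :
    z ≤ z' := by
  apply (hB.2.2.2 z).2
  rintro w ⟨a, b, c, h1, h2, h3⟩
  have h4 : w = gen hB a b := by
    rw [h2, gen, cp_eq hB h1]
  rw [h4] at h3 ⊢
  exact h a b h3

theorem le_dg (hB : IsDMC i) {z z' : B} (h : ∀ c d, z ≤ dg hB c d → z' ≤ dg hB c d) :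
    z' ≤ z := by
  have h1 : cp hB z ≤ cp hB z' := by
    apply gen_le hB
    intro a b hab
    rw [le_cp_iff, cp_gen] at hab ⊢
    exact h _ _ hab
  have h2 := cp_anti hB h1
  rwa [cp_cp, cp_cp] at h2

theorem gen_le_dg (hB : IsDMC i) (a b c d : A) : gen hB a b ≤ dg hB c d ↔ mu a d ≤ pl c b := by
  unfold gen dg
  rw [← mu_le_iff (cp_spec hB (i.f d)), CLB.mu_assoc, CLB.mu_comm (cp hB (i.f b)),
    ← CLB.mu_assoc, mu_le_iff (cp_spec hB (i.f b)).symm, ← i.map_mu, ← i.map_pl]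
  exact ⟨fun h => i.le_of_le hB.1 h, fun h => i.mono h⟩

theorem gen_le_i (hB : IsDMC i) (a b c : A) : gen hB a b ≤ i.f c ↔ a ≤ pl c b := by
  unfold gen
  rw [mu_le_iff (cp_spec hB (i.f b)).symm, ← i.map_pl]
  exact ⟨fun h => i.le_of_le hB.1 h, fun h => i.mono h⟩

theorem mu_gen (hB : IsDMC i) (a b a' b' : A) :
    mu (gen hB a b) (gen hB a' b') = gen hB (mu a a') (pl b b') := by
  unfold gen
  rw [i.map_mu, i.map_pl, cp_pl]
  generalize cp hB (i.f b) = x
  generalize cp hB (i.f b') = y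
  rw [CLB.mu_assoc, CLB.mu_assoc, ← CLB.mu_assoc x, CLB.mu_comm x, CLB.mu_assoc (i.f a')]

theorem mu_le_gen (hB : IsDMC i) (z₁ z₂ y : B) : mu z₁ z₂ ≤ y ↔
    ∀ a b a' b', gen hB a b ≤ z₁ → gen hB a' b' ≤ z₂ →
      gen hB (mu a a') (pl b b') ≤ y := by
  constructor
  · intro h a b a' b' h1 h2
    rw [← mu_gen]
    exact (mu_mono h1 h2).trans h
  · intro h
    rw [mu_le_iff (cp_spec hB z₂)]
    apply gen_le hB
    intro a b hab
    rw [← mu_le_iff (cp_spec hB z₂), CLB.mu_comm, mu_le_iff (cp_spec hB _)]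
    apply gen_le hB
    intro a' b' hab'
    rw [← mu_le_iff (cp_spec hB _), CLB.mu_comm, mu_gen]
    exact h a b a' b' hab hab'

variable {B' : Type w} [CLB B'] {i' : Hm A B'}

/-- The comparison map. -/
noncomputable def Th (hB : IsDMC i) (hB' : IsDMC i') (z : B) : B' :=
  (hB'.2.1 {w | ∃ a b, gen hB a b ≤ z ∧ w = gen hB' a b}).choose

theorem Th_spec (hB : IsDMC i) (hB' : IsDMC i') (z : B) :
    IsLUB {w | ∃ a b, gen hB a b ≤ z ∧ w = gen hB' a b} (Th hB hB' z) :=
  (hB'.2.1 {w | ∃ a b, gen hB a b ≤ z ∧ w = gen hB' a b}).choose_spec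

theorem Th_U1 (hB : IsDMC i) (hB' : IsDMC i') {z : B} {c d : A} (h : z ≤ dg hB c d) :
    Th hB hB' z ≤ dg hB' c d := by
  apply (Th_spec hB hB' z).2
  rintro w ⟨a, b, hab, rfl⟩
  rw [gen_le_dg]
  exact (gen_le_dg hB _ _ _ _).1 (hab.trans h)

theorem Th_L (hB : IsDMC i) (hB' : IsDMC i') {z : B} {a b : A} :
    gen hB' a b ≤ Th hB hB' z ↔ gen hB a b ≤ z := by
  constructor
  · intro h
    apply le_dg hB
    intro c d hcd
    have h1 := h.trans (Th_U1 hB hB' hcd)
    rw [gen_le_dg] at h1 ⊢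
    exact h1
  · intro h
    exact (Th_spec hB hB' z).1 ⟨a, b, h, rfl⟩

theorem Th_U (hB : IsDMC i) (hB' : IsDMC i') {z : B} {c d : A} :
    Th hB hB' z ≤ dg hB' c d ↔ z ≤ dg hB c d := by
  constructor
  · intro h
    apply gen_le hB
    intro a b hab
    have h1 := ((Th_L hB hB').2 hab).trans h
    rw [gen_le_dg] at h1 ⊢
    exact h1
  · exact Th_U1 hB hB'

theorem eq_of_gen (hB : IsDMC i) {z z' : B} (h : ∀ a b, gen hB a b ≤ z ↔ gen hB a b ≤ z') :
    z = z' :=
  le_antisymm (gen_le hB fun a b => (h a b).1) (gen_le hB fun a b => (h a b).2)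

theorem eq_of_dg (hB : IsDMC i) {z z' : B} (h : ∀ c d, z ≤ dg hB c d ↔ z' ≤ dg hB c d) :
    z = z' :=
  le_antisymm (le_dg hB fun a b => (h a b).2) (le_dg hB fun a b => (h a b).1)

theorem Th_cp (hB : IsDMC i) (hB' : IsDMC i') (z : B) :
    Th hB hB' (cp hB z) = cp hB' (Th hB hB' z) := by
  apply eq_of_gen hB'
  intro a b
  rw [Th_L, le_cp_iff, cp_gen, le_cp_iff, cp_gen, Th_U]

theorem Th_mu (hB : IsDMC i) (hB' : IsDMC i') (x y : B) :
    Th hB hB' (mu x y) = mu (Th hB hB' x) (Th hB hB' y) := by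
  apply eq_of_dg hB'
  intro c d
  rw [Th_U, mu_le_gen hB, mu_le_gen hB']
  constructor
  · intro h a b a' b' h1 h2
    rw [Th_L] at h1 h2
    rw [gen_le_dg]
    exact (gen_le_dg hB _ _ _ _).1 (h a b a' b' h1 h2)
  · intro h a b a' b' h1 h2
    rw [gen_le_dg]
    exact (gen_le_dg hB' _ _ _ _).1 (h a b a' b' ((Th_L hB hB').2 h1) ((Th_L hB hB').2 h2))

theorem Th_pl (hB : IsDMC i) (hB' : IsDMC i') (x y : B) :
    Th hB hB' (pl x y) = pl (Th hB hB' x) (Th hB hB' y) := by
  have h1 : pl x y = cp hB (mu (cp hB x) (cp hB y)) := by rw [cp_mu, cp_cp, cp_cp]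
  rw [h1, Th_cp, Th_mu, Th_cp, Th_cp, cp_mu, cp_cp, cp_cp]

theorem Th_i (hB : IsDMC i) (hB' : IsDMC i') (a : A) : Th hB hB' (i.f a) = i'.f a := by
  apply eq_of_gen hB'
  intro c d
  rw [Th_L, gen_le_i, gen_le_i]

theorem Th_mono (hB : IsDMC i) (hB' : IsDMC i') {x y : B} (h : x ≤ y) :
    Th hB hB' x ≤ Th hB hB' y := by
  apply gen_le hB'
  intro a b hab
  rw [Th_L] at hab ⊢
  exact hab.trans h

theorem Th_Th (hB : IsDMC i) (hB' : IsDMC i') (z : B') :
    Th hB hB' (Th hB' hB z) = z := by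
  apply eq_of_gen hB'
  intro a b
  rw [Th_L, Th_L]

/-- The comparison map is a homomorphism. -/
noncomputable def ThH (hB : IsDMC i) (hB' : IsDMC i') : Hm B B' where
  f := Th hB hB'
  map_mu := Th_mu hB hB'
  map_pl := Th_pl hB hB'
  map_un := by rw [← i.map_un, Th_i, i'.map_un]
  map_ze := by rw [← i.map_ze, Th_i, i'.map_ze]
  map_sup x y := by
    apply le_antisymm
    · have h1 : x ⊔ y ≤ Th hB' hB (Th hB hB' x ⊔ Th hB hB' y) := by
        apply sup_le
        · calc x = Th hB' hB (Th hB hB' x) := (Th_Th hB' hB x).symm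
            _ ≤ _ := Th_mono hB' hB le_sup_left
        · calc y = Th hB' hB (Th hB hB' y) := (Th_Th hB' hB y).symm
            _ ≤ _ := Th_mono hB' hB le_sup_right
      have h2 := Th_mono hB hB' h1
      rwa [Th_Th] at h2
    · exact sup_le (Th_mono hB hB' le_sup_left) (Th_mono hB hB' le_sup_right)
  map_inf x y := by
    apply le_antisymm
    · exact le_inf (Th_mono hB hB' inf_le_left) (Th_mono hB hB' inf_le_right)
    · have h1 : Th hB' hB (Th hB hB' x ⊓ Th hB hB' y) ≤ x ⊓ y := by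
        apply le_inf
        · calc _ ≤ Th hB' hB (Th hB hB' x) := Th_mono hB' hB inf_le_left
            _ = x := Th_Th hB' hB x
        · calc _ ≤ Th hB' hB (Th hB hB' y) := Th_mono hB' hB inf_le_right
            _ = y := Th_Th hB' hB y
      have h2 := Th_mono hB hB' h1
      rwa [Th_Th] at h2

end Unique

theorem transport {V : Set (Term × Term)} {A B B' : Type u} [CLB A] [CLB B] [CLB B']
    {i : Hm A B} {i' : Hm A B'} (hB : IsDMC i) (hB' : IsDMC i') (h : InjHull V i) :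
    InjHull V i' := by
  obtain ⟨-, ⟨h2, h3⟩, h4⟩ := h
  refine ⟨hB'.1, ⟨?_, ?_⟩, ?_⟩
  · exact mod_of_surj (ThH hB hB') (fun z => ⟨_, Th_Th hB hB' z⟩) h2
  · intro C D _ _ hC hD j hj g
    obtain ⟨g', hg'⟩ := h3 C D hC hD j hj ((ThH hB' hB).comp g)
    refine ⟨(ThH hB hB').comp g', fun c => ?_⟩
    change Th hB hB' (g'.f (j.f c)) = g.f c
    rw [hg']
    exact Th_Th hB hB' _
  · intro C _ hC g hg
    have h5 : Function.Injective (g.comp (ThH hB hB')).f := by
      apply h4 C hC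
      intro a a' haa
      apply hg
      change g.f (Th hB hB' (i.f a)) = g.f (Th hB hB' (i.f a')) at haa
      rw [Th_i, Th_i] at haa
      exact haa
    intro z z' hzz
    rw [← Th_Th hB hB' z, ← Th_Th hB hB' z'] at hzz ⊢
    rw [show Th hB' hB z = Th hB' hB z' from h5 hzz]

/-! ## Bounded distributive lattices belong to the variety -/

/-- The top of `G true`. -/
def g3 : G true := ⟨3, fun _ => Or.inr rfl⟩

/-- The bottom of `G true`. -/
def g0 : G true := ⟨0, fun _ => Or.inl rfl⟩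

theorem bdl_mod {A : Type u} [CLB A] (hA : IsBDL A) : Mod VV A := by
  obtain ⟨hmu, hpl, hun, hze⟩ := hA
  have hdis : ∀ x y z : A, x ⊔ (y ⊓ z) = (x ⊔ y) ⊓ (x ⊔ z) := by
    intro x y z
    have := CLB.pl_inf x y z
    rwa [hpl, hpl, hpl] at this
  intro s t hst v
  have main : ∀ c c' : A, (∀ g : Hm A (G true), g.f c = g.f c') → c ≤ c' := by
    intro c c' hcc
    by_contra hle
    obtain ⟨P, hF, hI, hinf, hsup⟩ := prime_sep hdis {d | c ≤ d} {d | d ≤ c'}
      ⟨c, le_rfl⟩ (fun x y hxy hx => le_trans hx hxy) (fun x y hx hy => le_inf hx hy)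
      ⟨c', le_rfl⟩ (fun x y hxy hy => le_trans hxy hy) (fun x y hx hy => sup_le hx hy)
      (fun x hx hx' => hle (le_trans hx hx'))
    classical
    let g : Hm A (G true) :=
      { f := fun a => if P a then g3 else g0
        map_mu := by
          intro a b
          rw [hmu]
          by_cases ha : P a <;> by_cases hb : P b <;> simp only [hinf, ha, hb, if_true, if_false,
            and_true, and_false, and_self] <;> rfl
        map_pl := by
          intro a b
          rw [hpl]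
          by_cases ha : P a <;> by_cases hb : P b <;> simp only [hsup, ha, hb, if_true, if_false,
            or_true, or_false, or_self, true_or, false_or] <;> rfl
        map_un := by
          rw [if_pos (hF _ (hun c))]
          rfl
        map_ze := by
          rw [if_neg (hI _ (hze c'))]
          rfl
        map_sup := by
          intro a b
          by_cases ha : P a <;> by_cases hb : P b <;> simp only [hsup, ha, hb, if_true, if_false,
            or_true, or_false, or_self, true_or, false_or] <;> rfl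
        map_inf := by
          intro a b
          by_cases ha : P a <;> by_cases hb : P b <;> simp only [hinf, ha, hb, if_true, if_false,
            and_true, and_false, and_self] <;> rfl }
    have h1 := hcc g
    change (if P c then g3 else g0) = (if P c' then g3 else g0) at h1
    rw [if_pos (hF c le_rfl), if_neg (hI c' le_rfl)] at h1
    exact absurd h1 (by decide)
  have h2 : ∀ g : Hm A (G true), g.f (s.eval v) = g.f (t.eval v) := by
    intro g
    rw [g.map_eval, g.map_eval]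
    exact hst true _
  exact le_antisymm (main _ _ h2) (main _ _ fun g => (h2 g).symm)

/-- **Theorem.** There is a variety of commutative `ℓ`-bimonoids, properly containing the
bounded distributive lattices, in which the complemented Dedekind-MacNeille completion of every
member exists, lies in the variety and is an injective hull. -/
theorem result : ∃ V : Set (Term × Term),
    (∀ (A : Type u) [CLB A], IsBDL A → Mod V A) ∧
    (∃ (A : Type u) (_ : CLB A), Mod V A ∧ ¬ IsBDL A) ∧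
    ∀ (A : Type u) [CLB A], Mod V A →
      (∃ (B : Type u) (_ : CLB B) (i : Hm A B), IsDMC i) ∧
      ∀ (B : Type u) [CLB B] (i : Hm A B), IsDMC i → Mod V B ∧ InjHull V i := by
  refine ⟨VV, fun A _ h => bdl_mod h, ?_, ?_⟩
  · refine ⟨∀ _ : PUnit.{u + 1}, G false, inferInstance, mod_pi fun _ => mod_G false, ?_⟩
    intro h
    have h1 : (tp : G false) ≤ (un : G false) := h.2.2.1 (fun _ => (tp : G false)) PUnit.unit
    exact absurd h1 (by decide)
  · intro A _ hA
    obtain ⟨B, _, i, hB, hI⟩ := completion hA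
    refine ⟨⟨B, inferInstance, i, hB⟩, fun B' _ i' hB' => ?_⟩
    have h1 := transport hB hB' hI
    exact ⟨h1.2.1.1, h1⟩

end Pool.Agent.Results.MP_edd14c_al.DMInjHull
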